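import Mathlib
import Pool.Agent.H66R3.PG.L1b
import Pool.Agent.H66R3.PG.LowA
import Pool.Agent.H66R3.PG.LowC
import Pool.Agent.H66R3.PG.MkBasis

/-!
For `1 < p < ∞`, `p' = p / (p - 1)` and `e = max (2 / p') (p' / 2) - 1`, the function `u ^ e` is
admissible for the normalized unconditional bases of `L_p[0,1]`, and it is the least admissible
function up to constants. In particular a constant function is admissible only for `p = 2`.
-/

set_option autoImplicit false

open MeasureTheory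
open scoped ENNReal

namespace Pool.Agent.Results.MP_30195a_an.OptimalPhi

section General

variable {X : Type} [NormedAddCommGroup X] [NormedSpace ℝ X]

/-- `F` is a norming functional of `f`. -/
def IsNorming (F : StrongDual ℝ X) (f : X) : Prop := ‖F‖ = 1 ∧ F f = ‖f‖

/-- `G` is a best approximant to `f` from `W`. -/
def IsBest (f G : X) (W : Submodule ℝ X) : Prop := G ∈ W ∧ ∀ h ∈ W, ‖f - G‖ ≤ ‖f - h‖

/-- `r` is the sequence of residuals `f_k` and `φ` the sequence of picked elements `φ_{k+1}` of a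
run of WCGA(`t`) with respect to `D` started at `f₀`; after a zero residual all residuals are
zero. -/
def IsRun (D : Set X) (t : ℝ) (f₀ : X) (φ r : ℕ → X) : Prop :=
  r 0 = f₀ ∧ ∀ k, (r k = 0 → r (k + 1) = 0) ∧ (r k ≠ 0 → φ k ∈ D ∧
    (∃ F : StrongDual ℝ X, IsNorming F (r k) ∧ ∀ g ∈ D, t * |F g| ≤ |F (φ k)|) ∧
    ∃ G, IsBest f₀ G (Submodule.span ℝ (φ '' Set.Iio (k + 1))) ∧ r (k + 1) = f₀ - G)

/-- The best `m`-term approximation error. -/
noncomputable def sigma (D : Set X) (m : ℕ) (f : X) : ℝ :=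
  sInf {e : ℝ | ∃ (g : Fin m → X) (c : Fin m → ℝ), (∀ i, g i ∈ D) ∧ e = ‖f - ∑ i, c i • g i‖}

/-- `D` is `φ`-greedy for WCGA(`t`). -/
def PhiGreedy (D : Set X) (t : ℝ) (φ : ℝ → ℝ) : Prop :=
  ∃ C : ℝ, ∀ (f₀ : X) (g r : ℕ → X), IsRun D t f₀ g r →
    ∀ m : ℕ, 1 ≤ m → ‖r ⌊φ m * m⌋₊‖ ≤ C * sigma D m f₀

end General

/-- `φ` is admissible for `p`: for every normalized unconditional basis of `L_p[0,1]` and every
`t ∈ (0,1]` there is `c ≥ 1` such that the basis is `c φ`-greedy for WCGA(`t`). -/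
def Admissible (p : ℝ≥0∞) [Fact (1 ≤ p)] (φ : ℝ → ℝ) : Prop :=
  ∀ b : UnconditionalSchauderBasis ℕ ℝ (Lp ℝ p (volume.restrict (Set.Icc (0:ℝ) 1))),
    (∀ n, ‖b n‖ = 1) → ∀ t : ℝ, 0 < t → t ≤ 1 →
      ∃ c : ℝ, 1 ≤ c ∧ PhiGreedy (Set.range b) t (fun u => c * φ u)

/-- The exponent `max (2 / p') (p' / 2) - 1`, where `p' = p / (p - 1)`. -/
noncomputable def expo (p : ℝ) : ℝ := max (2 / (p / (p - 1))) (p / (p - 1) / 2) - 1

open Pool.Agent.H66R3.PG Pool.Agent.Helper415

lemma expo_eq {p : ℝ} (hp : 1 < p) : rr p * QQ p = expo p + 1 := by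
  have hp1 : 0 < p - 1 := by linarith
  have hp0 : 0 < p := by linarith
  unfold rr QQ expo
  have e1 : 2 / (p / (p - 1)) = 2 * (p - 1) / p := by field_simp
  have e2 : p / (p - 1) / 2 = p / (2 * (p - 1)) := by field_simp
  split_ifs with h
  · rw [e1, e2, max_eq_left]
    · field_simp; ring
    · rw [div_le_div_iff₀ (by positivity) hp0]
      nlinarith
  · push Not at h
    rw [e1, e2, max_eq_right]
    · field_simp; ring
    · rw [div_le_div_iff₀ hp0 (by positivity)]
      nlinarith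

lemma expo_nonneg {p : ℝ} (hp : 1 < p) : 0 ≤ expo p := by
  have := rQ_ge hp
  rw [expo_eq hp] at this
  linarith

lemma expo_pos {p : ℝ} (hp : 1 < p) (hp2 : p ≠ 2) : 0 < expo p := by
  have hp1 : 0 < p - 1 := by linarith
  have hp0 : 0 < p := by linarith
  unfold expo
  rw [sub_pos, lt_max_iff]
  have e1 : 2 / (p / (p - 1)) = 2 * (p - 1) / p := by field_simp
  have e2 : p / (p - 1) / 2 = p / (2 * (p - 1)) := by field_simp
  rcases lt_or_gt_of_ne hp2 with h | h
  · right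
    rw [e2, lt_div_iff₀ (by positivity)]; linarith
  · left
    rw [e1, lt_div_iff₀ hp0]; linarith

lemma expo_two : expo 2 = 0 := by
  unfold expo
  norm_num

section Bridge

variable {p : ℝ≥0∞} [Fact (1 ≤ p)]

/-- The norming functional is unique. -/
lemma norming_unique (hp : 1 < p.toReal) {f : Lp ℝ p mu} (hf : f ≠ 0)
    {F : StrongDual ℝ (Lp ℝ p mu)} (hF : IsNorming F f) (g : Lp ℝ p mu) :
    F g = TG.normingF f g := by
  have hf0 : ‖f‖ ≠ 0 := norm_ne_zero_iff.mpr hf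
  set h : Lp ℝ p mu := g - (F g / ‖f‖) • f with hh
  have h1 : F h = 0 := by
    rw [hh, map_sub, map_smul, hF.2, smul_eq_mul, div_mul_cancel₀ _ hf0, sub_self]
  have h2 : TG.normingF f h = 0 := by
    apply F_zero hp hf
    intro s
    have h3 : F (f - s • h) = ‖f‖ := by
      rw [map_sub, map_smul, h1, smul_zero, sub_zero, hF.2]
    calc ‖f‖ = F (f - s • h) := h3.symm
      _ ≤ ‖F (f - s • h)‖ := Real.le_norm_self _
      _ ≤ ‖F‖ * ‖f - s • h‖ := F.le_opNorm _
      _ = ‖f - s • h‖ := by rw [hF.1, one_mul]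
  have h3 : FF hp f h = 0 := h2
  rw [hh, map_sub, map_smul] at h3
  have h4 : FF hp f f = ‖f‖ := F_self hp hf
  rw [h4, smul_eq_mul, div_mul_cancel₀ _ hf0] at h3
  have h5 : FF hp f g = TG.normingF f g := rfl
  linarith

/-- The norming functional exists. -/
lemma norming_exists (hp : 1 < p.toReal) {f : Lp ℝ p mu} (hf : f ≠ 0) :
    ∃ F : StrongDual ℝ (Lp ℝ p mu), IsNorming F f ∧ ∀ g, F g = TG.normingF f g := by
  have hf0 : 0 < ‖f‖ := norm_pos_iff.mpr hf
  set F : StrongDual ℝ (Lp ℝ p mu) := (FF hp f).mkContinuous 1 (fun g => by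
    rw [one_mul, Real.norm_eq_abs]; exact F_le hp f g) with hF
  have hF1 : ∀ g, F g = TG.normingF f g := fun g => rfl
  have hF2 : F f = ‖f‖ := F_self hp hf
  refine ⟨F, ⟨le_antisymm ?_ ?_, hF2⟩, hF1⟩
  · exact LinearMap.mkContinuous_norm_le _ zero_le_one _
  · have h1 := F.le_opNorm f
    rw [hF2, norm_norm] at h1
    by_contra hcon
    push Not at hcon
    nlinarith

lemma run_iff (hp : 1 < p.toReal) (D : Set (Lp ℝ p mu)) (t : ℝ) (f₀ : Lp ℝ p mu)
    (φ r : ℕ → Lp ℝ p mu) : IsRun D t f₀ φ r ↔ TG.IsRun TG.normingF D t f₀ φ r := by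
  unfold IsRun TG.IsRun TG.Step TG.WeakGreedy
  refine and_congr_right fun _ => forall_congr' fun k => and_congr_right fun _ =>
    forall_congr' fun hk => ?_
  constructor
  · rintro ⟨h1, ⟨F, hF, h2⟩, h3⟩
    refine ⟨⟨h1, fun g hg => ?_⟩, h3⟩
    have := h2 g hg
    rw [norming_unique hp hk hF, norming_unique hp hk hF] at this
    exact this
  · rintro ⟨⟨h1, h2⟩, h3⟩
    obtain ⟨F, hF, hF'⟩ := norming_exists hp hk
    refine ⟨h1, ⟨F, hF, fun g hg => ?_⟩, h3⟩
    rw [hF', hF']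
    exact h2 g hg

/-- The upper bound. -/
lemma upper_part (hp : 1 < p.toReal)
    (b : UnconditionalSchauderBasis ℕ ℝ (Lp ℝ p mu)) (hb : ∀ n, ‖b n‖ = 1) (t : ℝ) (ht : 0 < t) :
    ∃ c : ℝ, 1 ≤ c ∧ PhiGreedy (Set.range b) t (fun u => c * u ^ expo p.toReal) := by
  obtain ⟨K, hK, hsupp⟩ := basis_supp b
  obtain ⟨κ, W, hU⟩ := ubh_Lp (μ := mu) hp hK hb hsupp
  obtain ⟨C, hC, hup⟩ := upper hU ht (rQ_ge hp)
  refine ⟨C + 1, by linarith, 5, fun f₀ g r hrun m hm => ?_⟩
  rw [run_iff hp] at hrun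
  have hm0 : (0:ℝ) < m := by exact_mod_cast hm
  apply hup f₀ g r hrun m
  rw [expo_eq hp, Real.rpow_add_one hm0.ne']
  have h1 := Nat.lt_floor_add_one ((C + 1) * (m:ℝ) ^ expo p.toReal * m)
  have h2 : (1:ℝ) ≤ (m:ℝ) ^ expo p.toReal * m := by
    have h3 : (1:ℝ) ≤ m := by exact_mod_cast hm
    have h4 : (1:ℝ) ≤ (m:ℝ) ^ expo p.toReal := Real.one_le_rpow h3 (expo_nonneg hp)
    nlinarith
  nlinarith

/-- A normalized unconditional basis with the same elements as the special system. -/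
lemma special_basis (hp : 1 < p.toReal) :
    ∃ b : UnconditionalSchauderBasis ℕ ℝ (Lp ℝ p mu), (∀ n, ‖b n‖ = 1) ∧
      Set.range b = Set.range (bE p) := by
  obtain ⟨e⟩ : Nonempty (ℕ ≃ (IL ⊕ IR)) := nonempty_equiv_of_countable
  obtain ⟨C, hC, hunc⟩ := unc_bE (P := p) hp
  have hrange : Set.range (fun n => bE p (e n)) = Set.range (bE p) :=
    e.surjective.range_comp (bE p)
  obtain ⟨b, hb⟩ := mk_basis (fun n => bE p (e n))
    (fun n h => by
      have := norm_bE hp (e n)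
      rw [h, norm_zero] at this
      exact zero_ne_one this)
    (by rw [hrange]; exact dense_bE hp) hC.le
    (fun S T a hTS => by
      classical
      have h1 := hunc (S.map e.toEmbedding) (fun i => a (e.symm i))
        (fun i => if e.symm i ∈ T then 1 else 0) (fun i => by
          split_ifs <;> simp)
      rw [Finset.sum_map, Finset.sum_map] at h1
      simp only [Equiv.coe_toEmbedding, Equiv.symm_apply_apply] at h1
      have h2 : ∑ x ∈ S, ((if x ∈ T then (1:ℝ) else 0) * a x) • bE p (e x) =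
          ∑ x ∈ T, a x • bE p (e x) := by
        rw [← Finset.sum_subset hTS]
        · apply Finset.sum_congr rfl
          intro x hx
          rw [if_pos hx, one_mul]
        · intro x _ hx
          rw [if_neg hx, zero_mul, zero_smul]
      rw [h2] at h1
      exact h1)
  refine ⟨b, fun n => ?_, ?_⟩
  · rw [hb]; exact norm_bE hp _
  · rw [← hrange]
    congr 1
    funext n
    exact hb n

/-- The lower bound. -/
lemma lower_part (hp : 1 < p.toReal) (φ : ℝ → ℝ) (b : UnconditionalSchauderBasis ℕ ℝ (Lp ℝ p mu))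
    (hb : Set.range b = Set.range (bE p)) {c : ℝ} (hc : 1 ≤ c)
    (h : PhiGreedy (Set.range b) (1 / 2) (fun u => c * φ u)) :
    ∃ c' : ℝ, 0 < c' ∧ ∀ m : ℕ, 1 ≤ m → c' * (m:ℝ) ^ expo p.toReal ≤ φ m := by
  obtain ⟨C, hC⟩ := h
  rw [hb] at hC
  have hlow : LowB p (1 / 2) (expo p.toReal + 1) := by
    rw [← expo_eq hp]
    unfold rr QQ
    by_cases h2 : 2 ≤ p.toReal
    · rw [if_pos h2, if_pos h2]
      exact lowC hp
    · rw [if_neg h2, if_neg h2]
      have := lowA (P := p) (t := 1 / 2) hp (by linarith) (by norm_num) (by norm_num)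
      have e : 1 / 2 * (p.toReal / (p.toReal - 1)) = p.toReal / (p.toReal - 1) / 2 := by ring
      rw [e]; exact this
  obtain ⟨κ, hκ, H⟩ := hlow (max C 1) (lt_max_of_lt_right one_pos)
  have hc0 : 0 < c := by linarith
  refine ⟨κ / c, by positivity, fun m hm => ?_⟩
  have hm0 : (0:ℝ) < m := by exact_mod_cast hm
  set K := ⌊κ * (m:ℝ) ^ (expo p.toReal + 1)⌋₊ with hK
  obtain ⟨f₀, g, r, hr0, hstep, hbig⟩ := H m hm K (Nat.floor_le (by positivity))
  have hbdd : ∀ f : Lp ℝ p mu, BddAbove ((fun g => |TG.normingF f g|) '' Set.range (bE p)) := by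
    intro f
    refine ⟨1, ?_⟩
    rintro _ ⟨_, ⟨i, rfl⟩, rfl⟩
    have := F_le hp f (bE p i)
    rw [norm_bE hp] at this
    exact this
  obtain ⟨g', r', hrun, _, hr'⟩ := TG.extend_run (F := TG.normingF) (by norm_num : (1:ℝ) / 2 < 1)
    (Set.range_nonempty (bE p)) hbdd g r K hr0 hstep
  have h1 := hC f₀ g' r' ((run_iff hp _ _ _ _ _).mpr hrun) m hm
  have hsig : 0 ≤ sigma (Set.range (bE p)) m f₀ := by
    apply Real.sInf_nonneg
    rintro e ⟨_, _, _, rfl⟩
    exact norm_nonneg _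
  have h2 : K < ⌊c * φ m * m⌋₊ := by
    by_contra hcon
    push Not at hcon
    have h3 := hbig _ hcon
    rw [← hr' _ hcon] at h3
    have h4 : C * sigma (Set.range (bE p)) m f₀ ≤
        max C 1 * TG.sigma (Set.range (bE p)) m f₀ :=
      mul_le_mul_of_nonneg_right (le_max_left _ _) hsig
    linarith
  have h3 : κ * (m:ℝ) ^ (expo p.toReal + 1) ≤ c * φ m * m := by
    have h4 := (Nat.lt_floor_add_one (κ * (m:ℝ) ^ (expo p.toReal + 1))).le
    rw [← hK] at h4
    have h5 : ((K + 1 : ℕ) : ℝ) ≤ c * φ m * m := by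
      have h6 : K + 1 ≤ ⌊c * φ m * m⌋₊ := h2
      exact (Nat.le_floor_iff' (by omega)).mp h6
    push_cast at h5
    linarith
  rw [Real.rpow_add_one hm0.ne', ← mul_assoc] at h3
  have h4 := le_of_mul_le_mul_right h3 hm0
  rw [div_mul_eq_mul_div, div_le_iff₀ hc0, mul_comm (φ m)]
  exact h4

end Bridge

/-- Optimal `φ`-greediness of the normalized unconditional bases of `L_p[0,1]` for the WCGA. -/
theorem result (p : ℝ≥0∞) [Fact (1 ≤ p)] (hp : 1 < p) (hp' : p ≠ ⊤) :
    Admissible p (fun u => u ^ expo p.toReal) ∧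
    (∀ φ : ℝ → ℝ, (∀ u, 1 ≤ u → 1 ≤ φ u) → Admissible p φ →
      ∃ c : ℝ, 0 < c ∧ ∀ m : ℕ, 1 ≤ m → c * (m:ℝ) ^ expo p.toReal ≤ φ m) ∧
    (Admissible p (fun _ => 1) ↔ p = 2) := by
  have hp1 : 1 < p.toReal := by
    rw [← ENNReal.toReal_one]
    exact (ENNReal.toReal_lt_toReal ENNReal.one_ne_top hp').mpr hp
  have H1 : Admissible p (fun u => u ^ expo p.toReal) :=
    fun b hb t ht _ => upper_part hp1 b hb t ht
  have H2 : ∀ φ : ℝ → ℝ, Admissible p φ →
      ∃ c : ℝ, 0 < c ∧ ∀ m : ℕ, 1 ≤ m → c * (m:ℝ) ^ expo p.toReal ≤ φ m := by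
    intro φ hφ
    obtain ⟨b, hb1, hb2⟩ := special_basis (p := p) hp1
    obtain ⟨c, hc, hg⟩ := hφ b hb1 (1 / 2) (by norm_num) (by norm_num)
    exact lower_part hp1 φ b hb2 hc hg
  refine ⟨H1, fun φ _ h => H2 φ h, fun h => ?_, fun h => ?_⟩
  · by_contra hne
    have hne' : p.toReal ≠ 2 := by
      intro h2
      apply hne
      rw [← ENNReal.ofReal_toReal hp', h2]
      norm_num
    obtain ⟨c, hc, hcm⟩ := H2 _ h
    have he := expo_pos hp1 hne'
    have h1 := (tendsto_rpow_atTop he).comp tendsto_natCast_atTop_atTop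
    obtain ⟨N, hN⟩ := (h1.eventually_gt_atTop (1 / c)).exists_forall_of_atTop
    have h2 := hN (max N 1) (le_max_left _ _)
    have h3 := hcm (max N 1) (le_max_right _ _)
    simp only [Function.comp_apply] at h2
    rw [div_lt_iff₀ hc] at h2
    linarith
  · have h2 : p.toReal = 2 := by rw [h]; norm_num
    rw [h2, expo_two] at H1
    have e : (fun u : ℝ => u ^ (0:ℝ)) = fun _ => 1 := by
      funext u; rw [Real.rpow_zero]
    rw [e] at H1
    exact H1

end Pool.Agent.Results.MP_30195a_an.OptimalPhi
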